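import Mathlib

set_option autoImplicit false

namespace Pool.Agent.Results.MP_d6b6f7_nt.Example

open Polynomial QuadraticAlgebra

/-- the field of numbers re + im * sqrt 41 with rational re, im -/
abbrev K := QuadraticAlgebra ℚ 41 0

/-- the nontrivial automorphism -/
def cj (x : K) : K := ⟨x.re, -x.im⟩

/-- algebraic integers of K -/
def Intg (x : K) : Prop := IsIntegral ℤ x

def TotPos (x : K) : Prop :=
  0 < (x.re : ℝ) + (x.im : ℝ) * √41 ∧ 0 < (x.re : ℝ) - (x.im : ℝ) * √41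

def Indec (a : K) : Prop :=
  Intg a ∧ TotPos a ∧ ¬ ∃ b c : K, Intg b ∧ Intg c ∧ TotPos b ∧ TotPos c ∧ a = b + c

def IsUnitO (e : K) : Prop := Intg e ∧ ∃ f : K, Intg f ∧ e * f = 1

def Assoc (a b : K) : Prop := ∃ e : K, IsUnitO e ∧ a = e * b

def Admissible (a b : K) : Prop :=
  Indec a ∧ Indec b ∧ ¬ Assoc b a ∧ ¬ Assoc b (cj a) ∧
    ∀ h : K, Intg h → b ≠ a * h ^ 2 ∧ b ≠ cj a * h ^ 2 ∧ a ≠ b * h ^ 2 ∧ a ≠ cj b * h ^ 2

/-- the norm -/
def N (x : K) : ℚ := x.re ^ 2 - 41 * x.im ^ 2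

def Q (a : K) (m : ℤ) (x y : K) : K := a * x ^ 2 + 2 * (m : K) * x * y + cj a * y ^ 2

def Equivalent (a : K) (m : ℤ) (b : K) (n : ℤ) : Prop :=
  ∃ p q r s : K, Intg p ∧ Intg q ∧ Intg r ∧ Intg s ∧ IsUnitO (p * s - q * r) ∧
    ∀ x y : K, Q b n x y = Q a m (p * x + q * y) (r * x + s * y)

lemma N_mul (x y : K) : N (x * y) = N x * N y := by
  simp [N]; ring

lemma intg_mk (a b : ℤ) : Intg ⟨a + b / 2, b / 2⟩ := by
  have hw : IsIntegral ℤ (⟨1 / 2, 1 / 2⟩ : K) := by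
    refine ⟨X ^ 2 - X - 10, by monicity!, ?_⟩
    simp only [eval₂_sub, eval₂_mul, eval₂_X, eval₂_ofNat, sq]
    ext <;> simp <;> norm_num
  have : (⟨a + b / 2, b / 2⟩ : K) = algebraMap ℤ K a + algebraMap ℤ K b * ⟨1 / 2, 1 / 2⟩ := by
    ext <;> simp <;> ring
  rw [Intg, this]
  exact isIntegral_algebraMap.add (isIntegral_algebraMap.mul hw)

lemma rat_of_intg (q : ℚ) (h : IsIntegral ℤ (algebraMap ℚ K q)) : ∃ n : ℤ, (n : ℚ) = q := by
  rw [isIntegral_algebraMap_iff QuadraticAlgebra.algebraMap_injective] at h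
  simpa using (IsIntegrallyClosed.isIntegral_iff (R := ℤ) (K := ℚ)).1 h

def cjHom : K →ₐ[ℤ] K where
  toFun := cj
  map_one' := by ext <;> simp [cj]
  map_mul' x y := by ext <;> simp [cj]; ring
  map_zero' := by ext <;> simp [cj]
  map_add' x y := by ext <;> simp [cj]; ring
  commutes' r := by ext <;> simp [cj]

lemma intg_form (x : K) (h : Intg x) : ∃ a b : ℤ, x.re = a + b / 2 ∧ x.im = b / 2 := by
  have h' : IsIntegral ℤ (cj x) := h.map cjHom
  obtain ⟨A, hA⟩ := rat_of_intg (2 * x.re) (by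
    convert h.add h' using 1
    ext <;> simp [cj]; ring)
  obtain ⟨n, hn⟩ := rat_of_intg (N x) (by
    convert h.mul h' using 1
    ext <;> simp [cj, N, sq] <;> ring)
  have h1 : IsIntegral ℤ ((41 : ℚ) * (2 * x.im)) := by
    refine IsIntegral.of_pow two_pos ?_
    have : ((41 : ℚ) * (2 * x.im)) ^ 2 = algebraMap ℤ ℚ (41 * (A ^ 2 - 4 * n)) := by
      simp only [eq_intCast]; push_cast; rw [hA, hn, N]; ring
    rw [this]; exact isIntegral_algebraMap
  obtain ⟨c, hc⟩ := (IsIntegrallyClosed.isIntegral_iff (R := ℤ) (K := ℚ)).1 h1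
  simp only [eq_intCast] at hc
  have h2 : c ^ 2 = 41 * (A ^ 2 - 4 * n) := by
    have : (c : ℚ) ^ 2 = 41 * ((A : ℚ) ^ 2 - 4 * n) := by rw [hc, hA, hn, N]; ring
    exact_mod_cast this
  have h3 : (41 : ℤ) ∣ c := Int.Prime.dvd_pow' (p := 41) (by norm_num) ⟨_, h2⟩
  obtain ⟨B, rfl⟩ := h3
  have hB : (B : ℚ) = 2 * x.im := by push_cast at hc; linarith
  have h4 : 41 * B ^ 2 = A ^ 2 - 4 * n := by nlinarith
  have h5 : Even (A - B) := by
    have : Even (A ^ 2 - B ^ 2) := ⟨20 * B ^ 2 + 2 * n, by linarith⟩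
    rw [Int.even_sub, Int.even_pow' two_ne_zero, Int.even_pow' two_ne_zero] at this
    exact Int.even_sub.2 this
  obtain ⟨k, hk⟩ := h5
  refine ⟨k, B, ?_, by linarith⟩
  have : (A : ℚ) - B = k + k := by exact_mod_cast hk
  linarith

lemma N_int (x : K) (h : Intg x) : ∃ n : ℤ, N x = n := by
  obtain ⟨a, b, h1, h2⟩ := intg_form x h
  exact ⟨a ^ 2 + a * b - 10 * b ^ 2, by rw [N, h1, h2]; push_cast; ring⟩

lemma s41 : (6.4 : ℝ) < √41 ∧ √41 < (6.4032 : ℝ) :=
  ⟨Real.lt_sqrt_of_sq_lt (by norm_num), (Real.sqrt_lt' (by norm_num)).2 (by norm_num)⟩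

lemma tr_pos (x : K) (h : TotPos x) (u v : ℝ) (hu : 0 < u) (hv : |v| ≤ 6.4 * u) :
    0 < u * x.re + v * x.im := by
  obtain ⟨h1, h2⟩ := h
  have h3 := s41.1
  have h4 := abs_le.1 hv
  have h5 : 0 < (u * √41 + v) * (x.re + x.im * √41) := mul_pos (by nlinarith) h1
  have h6 : 0 < (u * √41 - v) * (x.re - x.im * √41) := mul_pos (by nlinarith) h2
  have h7 : 0 < 2 * √41 * (u * x.re + v * x.im) := by nlinarith
  exact (pos_iff_pos_of_mul_pos h7).1 (by linarith)

lemma indec (x : K) (u v : ℤ) (hu : 0 < u) (hv : |(v : ℝ)| ≤ 6.4 * u) (hp : Even (u + v))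
    (h1 : (u : ℚ) * x.re + v * x.im = 1) :
    ¬ ∃ b c : K, Intg b ∧ Intg c ∧ TotPos b ∧ TotPos c ∧ x = b + c := by
  rintro ⟨b, c, hb, hc, pb, pc, rfl⟩
  obtain ⟨k, hk⟩ := hp
  have hk' : (u : ℚ) + v = k + k := by exact_mod_cast hk
  have key : ∀ y : K, Intg y → TotPos y → 1 ≤ (u : ℚ) * y.re + v * y.im := by
    intro y hy py
    obtain ⟨a, b, e1, e2⟩ := intg_form y hy
    have p1 := tr_pos y py u v (by exact_mod_cast hu) hv
    have p2 : (0 : ℚ) < u * y.re + v * y.im := by exact_mod_cast p1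
    have e : (u : ℚ) * y.re + v * y.im = ((u * a + k * b : ℤ) : ℚ) := by
      rw [e1, e2]; push_cast; linear_combination (b / 2 : ℚ) * hk'
    rw [e] at p2 ⊢
    exact_mod_cast p2
  have k1 := key b hb pb
  have k2 := key c hc pc
  simp only [QuadraticAlgebra.re_add, QuadraticAlgebra.im_add] at h1
  linarith

lemma unit_norm (e : K) (h : IsUnitO e) : N e = 1 ∨ N e = -1 := by
  obtain ⟨h1, f, h2, h3⟩ := h
  obtain ⟨a, ha⟩ := N_int e h1
  obtain ⟨b, hb⟩ := N_int f h2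
  have := congrArg N h3
  rw [N_mul, ha, hb] at this
  have h4 : a * b = 1 := by
    have h5 : N 1 = 1 := by simp [N]
    rw [h5] at this; exact_mod_cast this
  rcases Int.eq_one_or_neg_one_of_mul_eq_one h4 with h | h <;> simp [ha, h]

theorem result : ∃ (a b : K) (m n : ℤ), Admissible a b ∧ m ≠ 0 ∧ n ≠ 0 ∧
    (m : ℚ) ^ 2 < N a ∧ (n : ℚ) ^ 2 < N b ∧ Equivalent a m b n := by
  have s1 := s41.1
  have s2 := s41.2
  have na : N ⟨13, 2⟩ = 5 := by norm_num [N]
  have na' : N (cj ⟨13, 2⟩) = 5 := by norm_num [N, cj]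
  have nb : N ⟨173 / 2, 27 / 2⟩ = 10 := by norm_num [N]
  have nb' : N (cj ⟨173 / 2, 27 / 2⟩) = 10 := by norm_num [N, cj]
  have im : ∀ (a b : ℤ) (x : K), x.re = a + b / 2 → x.im = b / 2 → Intg x := by
    intro a b x h1 h2
    have : x = ⟨a + b / 2, b / 2⟩ := by ext <;> assumption
    rw [this]; exact intg_mk a b
  refine ⟨⟨13, 2⟩, ⟨173 / 2, 27 / 2⟩, 2, 3, ⟨⟨im 11 4 _ (by norm_num) (by norm_num),
    ⟨by push_cast; linarith, by push_cast; linarith⟩,
    indec _ 3 (-19) (by norm_num) (by norm_num) (by decide) (by norm_num)⟩,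
    ⟨im 73 27 _ (by norm_num) (by norm_num), ⟨by push_cast; linarith, by push_cast; linarith⟩,
    indec _ 10 (-64) (by norm_num) (by norm_num) (by decide) (by norm_num)⟩, ?_, ?_, ?_⟩,
    by norm_num, by norm_num, by rw [na]; norm_num, by rw [nb]; norm_num, ?_⟩
  · rintro ⟨e, he, h⟩
    have := congrArg N h
    rw [N_mul, na, nb] at this
    rcases unit_norm e he with h | h <;> rw [h] at this <;> norm_num at this
  · rintro ⟨e, he, h⟩
    have := congrArg N h
    rw [N_mul, na', nb] at this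
    rcases unit_norm e he with h | h <;> rw [h] at this <;> norm_num at this
  · intro h hh
    obtain ⟨k, hk⟩ := N_int h hh
    have k1 : (10 : ℚ) ≠ 5 * (k * k) := by
      intro e
      have : (2 : ℤ) = k * k := by
        have : (2 : ℚ) = k * k := by linarith
        exact_mod_cast this
      have h1 : k < 2 := by nlinarith
      have h2 : -2 < k := by nlinarith
      interval_cases k <;> simp at this
    have k2 : (5 : ℚ) ≠ 10 * (k * k) := by
      intro e
      have : (1 : ℤ) = 2 * (k * k) := by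
        have : (1 : ℚ) = 2 * (k * k) := by linarith
        exact_mod_cast this
      omega
    refine ⟨fun e => k1 ?_, fun e => k1 ?_, fun e => k2 ?_, fun e => k2 ?_⟩ <;>
      (have := congrArg N e; rw [N_mul, sq, N_mul, hk] at this; simpa [na, nb, na', nb'] using this)
  · refine ⟨⟨-5 / 2, -1 / 2⟩, ⟨19 / 2, -3 / 2⟩, ⟨32, 5⟩, 1, im (-2) (-1) _ (by norm_num) (by norm_num),
      im 11 (-3) _ (by norm_num) (by norm_num), im 27 10 _ (by norm_num) (by norm_num),
      isIntegral_one, ⟨im 1 0 _ (by simp; norm_num) (by simp; norm_num), 1, isIntegral_one, ?_⟩, ?_⟩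
    · ext <;> simp <;> norm_num
    · intro x y
      ext <;> simp [Q, cj, sq] <;> ring

end Pool.Agent.Results.MP_d6b6f7_nt.Example
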